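import Mathlib

/-!
# Union-closed families closed under a further Boolean operation

Definitions, and the two halves of the dichotomy: closure under the union and under a Boolean
operation `f` that is neither a disjunction of variables nor constantly true gives closure under
`X ∪ (Y ∩ Z)`; and a family closed under `∪` and `X ∪ (Y ∩ Z)` has an element lying in at least
half of its members.
-/

namespace Q123.UCO

open Finset

/-- A `k`-ary Boolean operation. -/
abbrev Op (k : ℕ) : Type := (Fin k → Bool) → Bool

/-- The operation `f` applied to sets, coordinatewise over the ground set `V`: the elements `a` of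
`V` for which `f` is true at the truth values of `a ∈ X 0, …, a ∈ X (k - 1)`. -/
def app (V : Finset ℕ) {k : ℕ} (f : Op k) (X : Fin k → Finset ℕ) : Finset ℕ :=
  V.filter fun a => f (fun i => decide (a ∈ X i)) = true

/-- `F` is closed under `f` (over the ground set `V`). -/
def ClosedUnder (V : Finset ℕ) {k : ℕ} (f : Op k) (F : Finset (Finset ℕ)) : Prop :=
  ∀ X : Fin k → Finset ℕ, (∀ i, X i ∈ F) → app V f X ∈ F

/-- `f` is the disjunction of some of its variables (of none of them: constantly false). -/
def IsDisjunction {k : ℕ} (f : Op k) : Prop :=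
  ∃ s : Finset (Fin k), ∀ x, f x = true ↔ ∃ i ∈ s, x i = true

/-- `f` is constantly true. -/
def IsConstTrue {k : ℕ} (f : Op k) : Prop := ∀ x, f x = true

/-- `F` is union-closed. -/
def UnionClosed (F : Finset (Finset ℕ)) : Prop := ∀ X ∈ F, ∀ Y ∈ F, X ∪ Y ∈ F

/-- Some element lies in at least half of the members of `F`. -/
def HasFrequent (F : Finset (Finset ℕ)) : Prop :=
  ∃ i : ℕ, F.card ≤ 2 * (F.filter fun X => i ∈ X).card

theorem frequent_of_closed (F : Finset (Finset ℕ)) (hU : UnionClosed F)
    (hI : ∀ X ∈ F, ∀ Y ∈ F, ∀ Z ∈ F, X ∪ (Y ∩ Z) ∈ F) (hF : F ≠ {∅}) : HasFrequent F := by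
  classical
  rcases F.eq_empty_or_nonempty with h0 | hne
  · subst h0
    exact ⟨0, by simp⟩
  have hN : ∃ X ∈ F, X.Nonempty := by
    by_contra hcon
    push Not at hcon
    apply hF
    ext X
    rw [mem_singleton]
    constructor
    · intro hX
      exact not_nonempty_iff_eq_empty.mp (fun h => by
        have := hcon X hX
        exact absurd h (by simpa using this))
    · rintro rfl
      obtain ⟨Y, hY⟩ := hne
      have : Y = ∅ := not_nonempty_iff_eq_empty.mp (fun h => by
        have := hcon Y hY
        exact absurd h (by simpa using this))
      rwa [this] at hY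
  obtain ⟨X₀, hX₀, hX₀ne⟩ := hN
  have hex : ∃ n, ∃ W : Finset ℕ, W.card = n ∧ W.Nonempty ∧ ∀ X ∈ F, X ∪ W ∈ F :=
    ⟨_, X₀, rfl, hX₀ne, fun X hX => hU X hX X₀ hX₀⟩
  obtain ⟨K, hKc, hKne, hK⟩ := Nat.find_spec hex
  have hmin := fun m (hm : m < Nat.find hex) => Nat.find_min hex hm
  have hdich : ∀ Y ∈ F, K ∩ Y = ∅ ∨ K ⊆ Y := by
    intro Y hY
    by_contra hcon
    push Not at hcon
    obtain ⟨h1, h2⟩ := hcon
    have hlt : (K ∩ Y).card < K.card := by
      apply card_lt_card
      refine ⟨inter_subset_left, fun h => h2 (fun a ha => (mem_inter.mp (h ha)).2)⟩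
    refine hmin (K ∩ Y).card (by omega) ⟨K ∩ Y, rfl, ?_, ?_⟩
    · exact h1
    · intro X hX
      have h3 := hI X hX Y hY (X ∪ K) (hK X hX)
      have h4 : X ∪ (Y ∩ (X ∪ K)) = X ∪ (K ∩ Y) := by
        ext a
        simp only [mem_union, mem_inter]
        tauto
      rwa [h4] at h3
  obtain ⟨i, hi⟩ := hKne
  refine ⟨i, ?_⟩
  have hinj : (F.filter fun X => i ∉ X).card ≤ (F.filter fun X => i ∈ X).card := by
    apply card_le_card_of_injOn (fun X => X ∪ K)
    · intro X hX
      have hX' : X ∈ F ∧ i ∉ X := by simpa using hX
      have h1 : X ∪ K ∈ F := hK X hX'.1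
      exact mem_coe.mpr (mem_filter.mpr ⟨h1, mem_union_right _ hi⟩)
    · intro X hX Y hY hXY
      have hX' : X ∈ F ∧ i ∉ X := by simpa using hX
      have hY' : Y ∈ F ∧ i ∉ Y := by simpa using hY
      have dX : K ∩ X = ∅ := (hdich X hX'.1).resolve_right (fun h => hX'.2 (h hi))
      have dY : K ∩ Y = ∅ := (hdich Y hY'.1).resolve_right (fun h => hY'.2 (h hi))
      have hXY' : X ∪ K = Y ∪ K := hXY
      ext a
      have h1 : a ∈ X ∪ K ↔ a ∈ Y ∪ K := by rw [hXY']
      have h2 : ¬ (a ∈ K ∧ a ∈ X) := by
        intro h
        have : a ∈ K ∩ X := mem_inter.mpr h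
        rw [dX] at this
        simp at this
      have h3 : ¬ (a ∈ K ∧ a ∈ Y) := by
        intro h
        have : a ∈ K ∩ Y := mem_inter.mpr h
        rw [dY] at this
        simp at this
      simp only [mem_union] at h1
      tauto
  have hsum := card_filter_add_card_filter_not (s := F) (fun X => i ∈ X)
  omega

/-- The pattern: `Y` on `s`, `Z` on `t`, `U` elsewhere. -/
def pat {k : ℕ} (s t : Finset (Fin k)) (U Y Z : Finset ℕ) : Fin k → Finset ℕ :=
  fun i => if i ∈ s then Y else if i ∈ t then Z else U

theorem pat_mem {k : ℕ} (s t : Finset (Fin k)) {U Y Z : Finset ℕ} {F : Finset (Finset ℕ)}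
    (hU : U ∈ F) (hY : Y ∈ F) (hZ : Z ∈ F) (i : Fin k) : pat s t U Y Z i ∈ F := by
  unfold pat
  split_ifs <;> assumption

/-- The point which is `y` on `s`, `z` on `t`, and false elsewhere. -/
def pt {k : ℕ} (s t : Finset (Fin k)) (y z : Bool) : Fin k → Bool :=
  fun i => if i ∈ s then y else if i ∈ t then z else false

theorem closed_pat {V : Finset ℕ} {k : ℕ} {f : Op k} {F : Finset (Finset ℕ)}
    (hF : UnionClosed F) (hf : ClosedUnder V f F) (s t : Finset (Fin k)) {U Y Z : Finset ℕ}
    (hU : U ∈ F) (hY : Y ∈ F) (hZ : Z ∈ F) :
    U ∪ V.filter (fun a => f (pt s t (decide (a ∈ Y)) (decide (a ∈ Z))) = true) ∈ F := by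
  have h1 := hF U hU _ (hf (pat s t U Y Z) (pat_mem s t hU hY hZ))
  have h2 : U ∪ V.filter (fun a => f (pt s t (decide (a ∈ Y)) (decide (a ∈ Z))) = true)
      = U ∪ app V f (pat s t U Y Z) := by
    ext a
    by_cases haU : a ∈ U
    · simp [haU]
    · have hp : (fun i => decide (a ∈ pat s t U Y Z i))
          = pt s t (decide (a ∈ Y)) (decide (a ∈ Z)) := by
        funext i
        unfold pat pt
        split_ifs
        · rfl
        · rfl
        · simp [haU]
      simp only [app, mem_union, mem_filter, hp]
  rw [h2]
  exact h1

/-- The support of a point. -/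
def supp {k : ℕ} (x : Fin k → Bool) : Finset (Fin k) := univ.filter fun i => x i = true

theorem mem_supp {k : ℕ} (x : Fin k → Bool) (i : Fin k) : i ∈ supp x ↔ x i = true := by
  simp [supp]

/-- Closure under `∪` and under an operation that is neither a disjunction nor constantly true
gives closure under `X ∪ (Y ∩ Z)`. -/
theorem closed_of_op {V : Finset ℕ} {k : ℕ} {f : Op k} {F : Finset (Finset ℕ)}
    (hV : ∀ X ∈ F, X ⊆ V) (hF : UnionClosed F) (hf : ClosedUnder V f F)
    (h1 : ¬ IsDisjunction f) (h2 : ¬ IsConstTrue f) :
    ∀ X ∈ F, ∀ Y ∈ F, ∀ Z ∈ F, X ∪ (Y ∩ Z) ∈ F := by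
  classical
  by_cases h0 : f (fun _ => false) = true
  · -- the zero point is true
    unfold IsConstTrue at h2
    push Not at h2
    obtain ⟨b, hb⟩ := h2
    have hneg : ∀ U ∈ F, ∀ Y ∈ F, U ∪ (V \ Y) ∈ F := by
      intro U hU Y hY
      have h := closed_pat hF hf (supp b) ∅ hU hY hY
      have e : U ∪ V.filter (fun a => f (pt (supp b) ∅ (decide (a ∈ Y)) (decide (a ∈ Y))) = true)
          = U ∪ (V \ Y) := by
        ext a
        by_cases haY : a ∈ Y
        · have hp : pt (supp b) ∅ true true = b := by
            funext i
            by_cases hi : b i = true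
            · simp [pt, mem_supp, hi]
            · have : b i = false := by simpa using hi
              simp [pt, mem_supp, this]
          simp [haY, hp, hb]
        · have hp : pt (supp b) ∅ false false = fun _ => false := by
            funext i
            simp [pt]
          simp [haY, hp, h0]
      rwa [e] at h
    intro X hX Y hY Z hZ
    have h3 := hneg X hX _ (hF _ (hneg X hX Y hY) _ (hneg X hX Z hZ))
    have h4 : X ∪ (V \ (X ∪ (V \ Y) ∪ (X ∪ (V \ Z)))) = X ∪ (Y ∩ Z) := by
      ext a
      have hYV : a ∈ Y → a ∈ V := fun h => hV Y hY h
      simp only [mem_union, mem_sdiff, mem_inter]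
      tauto
    rwa [h4] at h3
  · have h0' : f (fun _ => false) = false := by simpa using h0
    by_cases hmono : ∃ a b : Fin k → Bool, (∀ i, a i = true → b i = true) ∧ f a = true ∧
        f b = false
    · obtain ⟨a, b, hab, ha, hb⟩ := hmono
      have e10 : pt (supp a) (supp b) true false = a := by
        funext i
        by_cases hi : a i = true
        · simp [pt, mem_supp, hi]
        · have : a i = false := by simpa using hi
          simp [pt, mem_supp, this]
      have e11 : pt (supp a) (supp b) true true = b := by
        funext i
        by_cases hi : a i = true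
        · simp [pt, mem_supp, hi, hab i hi]
        · have h : a i = false := by simpa using hi
          by_cases hi' : b i = true
          · simp [pt, mem_supp, h, hi']
          · have h' : b i = false := by simpa using hi'
            simp [pt, mem_supp, h, h']
      have e00 : pt (supp a) (supp b) false false = fun _ => false := by
        funext i
        simp [pt]
      cases hc : f (pt (supp a) (supp b) false true)
      · -- u ∨ (y ∧ ¬ z)
        have hh : ∀ U ∈ F, ∀ Y ∈ F, ∀ Z ∈ F, U ∪ (Y \ Z) ∈ F := by
          intro U hU Y hY Z hZ
          have h := closed_pat hF hf (supp a) (supp b) hU hY hZ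
          have e : U ∪ V.filter (fun c => f (pt (supp a) (supp b) (decide (c ∈ Y))
              (decide (c ∈ Z))) = true) = U ∪ (Y \ Z) := by
            ext c
            have hYV : c ∈ Y → c ∈ V := fun h => hV Y hY h
            by_cases hcY : c ∈ Y <;> by_cases hcZ : c ∈ Z
            · simp [hcY, hcZ, e11, hb]
            · simp [hcY, hcZ, e10, ha, hYV hcY]
            · simp [hcY, hcZ, hc]
            · simp [hcY, hcZ, e00, h0']
          rwa [e] at h
        intro X hX Y hY Z hZ
        have h3 := hh X hX Y hY _ (hh X hX Y hY Z hZ)
        have h4 : X ∪ (Y \ (X ∪ (Y \ Z))) = X ∪ (Y ∩ Z) := by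
          ext c
          simp only [mem_union, mem_sdiff, mem_inter]
          tauto
        rwa [h4] at h3
      · -- u ∨ (y + z)
        have hh : ∀ U ∈ F, ∀ Y ∈ F, ∀ Z ∈ F, U ∪ ((Y \ Z) ∪ (Z \ Y)) ∈ F := by
          intro U hU Y hY Z hZ
          have h := closed_pat hF hf (supp a) (supp b) hU hY hZ
          have e : U ∪ V.filter (fun c => f (pt (supp a) (supp b) (decide (c ∈ Y))
              (decide (c ∈ Z))) = true) = U ∪ ((Y \ Z) ∪ (Z \ Y)) := by
            ext c
            have hYV : c ∈ Y → c ∈ V := fun h => hV Y hY h
            have hZV : c ∈ Z → c ∈ V := fun h => hV Z hZ h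
            by_cases hcY : c ∈ Y <;> by_cases hcZ : c ∈ Z
            · simp [hcY, hcZ, e11, hb]
            · simp [hcY, hcZ, e10, ha, hYV hcY]
            · simp [hcY, hcZ, hc, hZV hcZ]
            · simp [hcY, hcZ, e00, h0']
          rwa [e] at h
        intro X hX Y hY Z hZ
        have h3 := hh X hX _ (hh X hX Y hY Z hZ) _ (hF X hX _ (hF Y hY Z hZ))
        have h4 : X ∪ (((X ∪ ((Y \ Z) ∪ (Z \ Y))) \ (X ∪ (Y ∪ Z))) ∪
            ((X ∪ (Y ∪ Z)) \ (X ∪ ((Y \ Z) ∪ (Z \ Y))))) = X ∪ (Y ∩ Z) := by
          ext c
          simp only [mem_union, mem_sdiff, mem_inter]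
          tauto
        rwa [h4] at h3
    · push Not at hmono
      have hmono' : ∀ a b : Fin k → Bool, (∀ i, a i = true → b i = true) → f a = true →
          f b = true := by
        intro a b hab ha
        have := hmono a b hab ha
        simpa using this
      -- a true point whose support is minimal and has at least two elements
      have hex : ∃ a : Fin k → Bool, f a = true ∧ (∀ i, a i = true →
          f (fun j => if j = i then true else false) = false) := by
        by_contra hcon
        push Not at hcon
        apply h1
        refine ⟨univ.filter fun i => f (fun j => if j = i then true else false) = true, ?_⟩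
        intro x
        constructor
        · intro hx
          obtain ⟨i, hi, hi'⟩ := hcon x hx
          refine ⟨i, ?_, hi⟩
          rw [mem_filter]
          exact ⟨mem_univ _, by simpa using hi'⟩
        · rintro ⟨i, hi, hxi⟩
          rw [mem_filter] at hi
          refine hmono' _ x ?_ hi.2
          intro j hj
          have : j = i := by
            by_contra hji
            simp [hji] at hj
          rw [this]
          exact hxi
      have hex2 : ∃ n, ∃ a : Fin k → Bool, (supp a).card = n ∧ f a = true ∧ (∀ i, a i = true →
          f (fun j => if j = i then true else false) = false) := by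
        obtain ⟨a, ha⟩ := hex
        exact ⟨_, a, rfl, ha⟩
      obtain ⟨a, hac, ha, hai⟩ := Nat.find_spec hex2
      have hmin := fun m (hm : m < Nat.find hex2) => Nat.find_min hex2 hm
      -- every point strictly below `a` is false
      have hbelow : ∀ b : Fin k → Bool, (∀ i, b i = true → a i = true) → b ≠ a →
          f b = false := by
        intro b hb hba
        by_contra hcon
        have hfb : f b = true := by simpa using hcon
        have hlt : (supp b).card < (supp a).card := by
          apply card_lt_card
          refine ⟨fun i hi => (mem_supp a i).mpr (hb i ((mem_supp b i).mp hi)), ?_⟩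
          intro hsub
          apply hba
          funext i
          by_cases hi : a i = true
          · rw [hi]
            exact (mem_supp b i).mp (hsub ((mem_supp a i).mpr hi))
          · have h : a i = false := by simpa using hi
            rw [h]
            by_contra hbi
            have : b i = true := by simpa using hbi
            exact hi (hb i this)
        exact hmin _ (by omega) ⟨b, rfl, hfb, fun i hi => hai i (hb i hi)⟩
      -- pick an element of the support
      have hne : ∃ i, a i = true := by
        by_contra hcon
        push Not at hcon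
        have : a = fun _ => false := by
          funext i
          simpa using hcon i
        rw [this, h0'] at ha
        exact absurd ha (by decide)
      obtain ⟨i, hi⟩ := hne
      have e11 : pt {i} (supp a) true true = a := by
        funext j
        by_cases hji : j = i
        · subst hji
          simp [pt, hi]
        · by_cases hj : a j = true
          · simp [pt, hji, mem_supp, hj]
          · have h : a j = false := by simpa using hj
            simp [pt, hji, mem_supp, h]
      have e10 : f (pt {i} (supp a) true false) = false := by
        have h := hai i hi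
        have : pt {i} (supp a) true false = fun j => if j = i then true else false := by
          funext j
          by_cases hji : j = i
          · simp [pt, hji]
          · simp [pt, hji]
        rw [this]
        exact h
      have e01 : f (pt {i} (supp a) false true) = false := by
        apply hbelow
        · intro j hj
          by_cases hji : j = i
          · rw [hji]
            exact hi
          · by_contra hj'
            have h : a j = false := by simpa using hj'
            simp [pt, hji, mem_supp, h] at hj
        · intro h
          have := congrFun h i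
          simp [pt, hi] at this
      have e00 : pt {i} (supp a) false false = fun _ => false := by
        funext j
        simp [pt]
      intro X hX Y hY Z hZ
      have h := closed_pat hF hf {i} (supp a) hX hY hZ
      have e : X ∪ V.filter (fun c => f (pt {i} (supp a) (decide (c ∈ Y))
          (decide (c ∈ Z))) = true) = X ∪ (Y ∩ Z) := by
        ext c
        have hYV : c ∈ Y → c ∈ V := fun h => hV Y hY h
        by_cases hcY : c ∈ Y <;> by_cases hcZ : c ∈ Z
        · simp [hcY, hcZ, e11, ha, hYV hcY]
        · simp [hcY, hcZ, e10]
        · simp [hcY, hcZ, e01]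
        · simp [hcY, hcZ, e00, h0']
      rwa [e] at h

/-- The union of finitely many members, over a nonempty index set. -/
theorem biUnion_mem {F : Finset (Finset ℕ)} (hF : UnionClosed F) {ι : Type*} [DecidableEq ι]
    (s : Finset ι) (hs : s.Nonempty) (X : ι → Finset ℕ) (hX : ∀ i ∈ s, X i ∈ F) :
    s.biUnion X ∈ F := by
  classical
  induction hs using Finset.Nonempty.cons_induction with
  | singleton a =>
    rw [singleton_biUnion]
    exact hX a (mem_singleton_self a)
  | cons a s has hs ih =>
    rw [cons_eq_insert, biUnion_insert]
    exact hF _ (hX a (mem_cons_self a s)) _ (ih (fun i hi => hX i (mem_cons_of_mem hi)))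

end Q123.UCO
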