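import Pool.Agent.Q123.UCO.Basic

/-!
The strict form: separating families closed under `∪` and `X ∪ (Y ∩ Z)` in which no element lies in
more than half of the members are power sets.
-/

namespace Q123.UCO

open Finset

/-- `F` separates the points of its universe. -/
def Separating (F : Finset (Finset ℕ)) : Prop :=
  ∀ x ∈ F.sup id, ∀ y ∈ F.sup id, x ≠ y → ∃ S ∈ F, (x ∈ S ∧ y ∉ S) ∨ (y ∈ S ∧ x ∉ S)

/-- Some element lies in strictly more than half of the members of `F`. -/
def HasVeryFrequent (F : Finset (Finset ℕ)) : Prop :=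
  ∃ x ∈ F.sup id, F.card < 2 * (F.filter fun X => x ∈ X).card

lemma mem_sup {F : Finset (Finset ℕ)} {a : ℕ} : a ∈ F.sup id ↔ ∃ X ∈ F, a ∈ X := by
  rw [Finset.mem_sup]
  rfl

lemma sub_sup {F : Finset (Finset ℕ)} {X : Finset ℕ} (hX : X ∈ F) : X ⊆ F.sup id :=
  fun a ha => mem_sup.2 ⟨X, hX, ha⟩

theorem powerset_of_closed (n : ℕ) : ∀ F : Finset (Finset ℕ), (F.sup id).card = n → F.Nonempty →
    UnionClosed F → (∀ X ∈ F, ∀ Y ∈ F, ∀ Z ∈ F, X ∪ (Y ∩ Z) ∈ F) → Separating F →
    (∀ x ∈ F.sup id, 2 * (F.filter fun X => x ∈ X).card ≤ F.card) → F = (F.sup id).powerset := by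
  classical
  induction n using Nat.strong_induction_on with
  | _ n ih =>
  intro F hn hne hU hI hS hfreq
  rcases (F.sup id).eq_empty_or_nonempty with h0 | h0
  · rw [h0, powerset_empty]
    have h1 : ∀ X ∈ F, X = ∅ := fun X hX => by
      have := sub_sup hX
      rw [h0] at this
      exact subset_empty.1 this
    ext X
    rw [mem_singleton]
    constructor
    · exact h1 X
    · rintro rfl
      obtain ⟨Y, hY⟩ := hne
      rwa [h1 Y hY] at hY
  obtain ⟨x0, hx0⟩ := h0
  obtain ⟨X₀, hX₀, hx0X⟩ := mem_sup.1 hx0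
  have hex : ∃ n, ∃ W : Finset ℕ, W.card = n ∧ W.Nonempty ∧ ∀ X ∈ F, X ∪ W ∈ F :=
    ⟨_, X₀, rfl, ⟨x0, hx0X⟩, fun X hX => hU X hX X₀ hX₀⟩
  obtain ⟨K, hKc, hKne, hK⟩ := Nat.find_spec hex
  have hmin := fun m (hm : m < Nat.find hex) => Nat.find_min hex hm
  have hdich : ∀ Y ∈ F, K ∩ Y = ∅ ∨ K ⊆ Y := by
    intro Y hY
    by_contra hcon
    push Not at hcon
    obtain ⟨h1, h2⟩ := hcon
    have hlt : (K ∩ Y).card < K.card := by
      apply card_lt_card
      refine ⟨inter_subset_left, fun h => h2 (fun a ha => (mem_inter.mp (h ha)).2)⟩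
    refine hmin (K ∩ Y).card (by omega) ⟨K ∩ Y, rfl, ?_, ?_⟩
    · exact h1
    · intro X hX
      have h3 := hI X hX Y hY (X ∪ K) (hK X hX)
      have h4 : X ∪ (Y ∩ (X ∪ K)) = X ∪ (K ∩ Y) := by
        ext a
        simp only [mem_union, mem_inter]
        tauto
      rwa [h4] at h3
  have hKU : K ⊆ F.sup id := by
    obtain ⟨X, hX⟩ := hne
    exact subset_union_right.trans (sub_sup (hK X hX))
  obtain ⟨i, hi⟩ := hKne
  have hKi : K = {i} := by
    ext a
    rw [mem_singleton]
    constructor
    · intro ha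
      by_contra hai
      obtain ⟨S, hSF, h1⟩ := hS a (hKU ha) i (hKU hi) hai
      rcases h1 with ⟨h2, h3⟩ | ⟨h2, h3⟩
      · rcases hdich S hSF with h4 | h4
        · have : a ∈ K ∩ S := mem_inter.2 ⟨ha, h2⟩
          rw [h4] at this
          simp at this
        · exact h3 (h4 hi)
      · rcases hdich S hSF with h4 | h4
        · have : i ∈ K ∩ S := mem_inter.2 ⟨hi, h2⟩
          rw [h4] at this
          simp at this
        · exact h3 (h4 ha)
    · rintro rfl
      exact hi
  have hins : ∀ X ∈ F, insert i X ∈ F := by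
    intro X hX
    have := hK X hX
    rwa [hKi, union_comm, ← insert_eq] at this
  have hiU : i ∈ F.sup id := hKU hi
  set F' := F.filter fun X => i ∉ X with hF'
  have hsum := card_filter_add_card_filter_not (s := F) (fun X => i ∈ X)
  have hsub : F'.image (insert i) ⊆ F.filter fun X => i ∈ X := by
    intro X hX
    obtain ⟨Y, hY, rfl⟩ := mem_image.1 hX
    exact mem_filter.2 ⟨hins Y (mem_filter.1 hY).1, mem_insert_self _ _⟩
  have hinj : Set.InjOn (insert i) (F' : Set (Finset ℕ)) := by
    intro X hX Y hY hXY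
    have h1 : i ∉ X := (mem_filter.1 hX).2
    have h2 : i ∉ Y := (mem_filter.1 hY).2
    have h3 : (insert i X).erase i = (insert i Y).erase i := by
      have : insert i X = insert i Y := hXY
      rw [this]
    rwa [erase_insert h1, erase_insert h2] at h3
  have himg : F'.image (insert i) = F.filter fun X => i ∈ X := by
    refine eq_of_subset_of_card_le hsub ?_
    rw [card_image_of_injOn hinj]
    have h1 := hfreq i hiU
    have h2 : (F.filter fun X => ¬ i ∈ X).card = F'.card := rfl
    omega
  have herase : ∀ X ∈ F, X.erase i ∈ F' := by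
    intro X hX
    by_cases hiX : i ∈ X
    · have h1 : X ∈ F'.image (insert i) := by
        rw [himg]; exact mem_filter.2 ⟨hX, hiX⟩
      obtain ⟨Y, hY, rfl⟩ := mem_image.1 h1
      rw [erase_insert (mem_filter.1 hY).2]
      exact hY
    · rw [erase_eq_of_notMem hiX]
      exact mem_filter.2 ⟨hX, hiX⟩
  have hcard : F.card = 2 * F'.card := by
    have h2 : (F.filter fun X => ¬ i ∈ X).card = F'.card := rfl
    rw [← himg, card_image_of_injOn hinj] at hsum
    omega
  have hsup : F'.sup id = (F.sup id).erase i := by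
    ext a
    rw [mem_erase, mem_sup, mem_sup]
    constructor
    · rintro ⟨X, hX, ha⟩
      have h1 := mem_filter.1 hX
      exact ⟨fun h => h1.2 (h ▸ ha), X, h1.1, ha⟩
    · rintro ⟨h1, X, hX, ha⟩
      exact ⟨X.erase i, herase X hX, mem_erase.2 ⟨h1, ha⟩⟩
  have hfx : ∀ x, x ≠ i → (F.filter fun X => x ∈ X).card = 2 * (F'.filter fun X => x ∈ X).card := by
    intro x hx
    have h1 : (F.filter fun X => x ∈ X) = (F'.filter fun X => x ∈ X) ∪
        (F'.filter fun X => x ∈ X).image (insert i) := by
      ext X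
      rw [mem_union, mem_image, mem_filter, mem_filter]
      constructor
      · rintro ⟨h2, h3⟩
        by_cases hiX : i ∈ X
        · right
          refine ⟨X.erase i, mem_filter.2 ⟨herase X h2, mem_erase.2 ⟨hx, h3⟩⟩, insert_erase hiX⟩
        · left
          exact ⟨mem_filter.2 ⟨h2, hiX⟩, h3⟩
      · rintro (⟨h2, h3⟩ | ⟨Y, hY, rfl⟩)
        · exact ⟨(mem_filter.1 h2).1, h3⟩
        · have h4 := mem_filter.1 hY
          exact ⟨hins Y (mem_filter.1 h4.1).1, mem_insert_of_mem h4.2⟩
    have hd : Disjoint (F'.filter fun X => x ∈ X) ((F'.filter fun X => x ∈ X).image (insert i)) := by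
      rw [Finset.disjoint_left]
      intro X hX hX'
      obtain ⟨Y, -, rfl⟩ := mem_image.1 hX'
      exact (mem_filter.1 (mem_filter.1 hX).1).2 (mem_insert_self _ _)
    rw [h1, card_union_of_disjoint hd, card_image_of_injOn]
    · ring
    · exact hinj.mono (by
        intro X hX
        exact (mem_filter.1 (mem_coe.1 hX)).1)
  have hlt : (F'.sup id).card < n := by
    rw [hsup, ← hn]
    exact card_erase_lt_of_mem hiU
  have hrec := ih _ hlt F' rfl (by
      obtain ⟨X, hX⟩ := hne
      exact ⟨_, herase X hX⟩)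
    (fun X hX Y hY => by
      have h1 := mem_filter.1 hX
      have h2 := mem_filter.1 hY
      exact mem_filter.2 ⟨hU X h1.1 Y h2.1, by rw [mem_union]; tauto⟩)
    (fun X hX Y hY Z hZ => by
      have h1 := mem_filter.1 hX
      have h2 := mem_filter.1 hY
      have h3 := mem_filter.1 hZ
      refine mem_filter.2 ⟨hI X h1.1 Y h2.1 Z h3.1, ?_⟩
      rw [mem_union, mem_inter]; tauto)
    (fun x hx y hy hxy => by
      rw [hsup, mem_erase] at hx hy
      obtain ⟨S, hSF, h1⟩ := hS x hx.2 y hy.2 hxy
      refine ⟨S.erase i, herase S hSF, ?_⟩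
      rw [mem_erase, mem_erase]
      tauto)
    (fun x hx => by
      rw [hsup, mem_erase] at hx
      have h1 := hfreq x hx.2
      rw [hfx x hx.1, hcard] at h1
      omega)
  ext X
  rw [mem_powerset]
  constructor
  · exact sub_sup
  · intro hX
    have h1 : X.erase i ∈ F' := by
      rw [hrec, mem_powerset, hsup]
      exact erase_subset_erase i hX
    by_cases hiX : i ∈ X
    · rw [← insert_erase hiX]
      exact hins _ (mem_filter.1 h1).1
    · rw [erase_eq_of_notMem hiX] at h1
      exact (mem_filter.1 h1).1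

/-- The strict inequality for families closed under `∪` and `X ∪ (Y ∩ Z)`. -/
theorem very_frequent_of_closed {F : Finset (Finset ℕ)} (hne : F.Nonempty) (hU : UnionClosed F)
    (hI : ∀ X ∈ F, ∀ Y ∈ F, ∀ Z ∈ F, X ∪ (Y ∩ Z) ∈ F) (hS : Separating F)
    (hF : F ≠ (F.sup id).powerset) : HasVeryFrequent F := by
  by_contra hcon
  unfold HasVeryFrequent at hcon
  push Not at hcon
  exact hF (powerset_of_closed _ F rfl hne hU hI hS hcon)

/-- In a power set every element lies in half of the members. -/
theorem powerset_half {V : Finset ℕ} {x : ℕ} (hx : x ∈ V) :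
    2 * (V.powerset.filter fun X => x ∈ X).card = V.powerset.card := by
  classical
  have h1 : (V.powerset.filter fun X => x ∈ X) = (V.erase x).powerset.image (insert x) := by
    ext X
    rw [mem_filter, mem_powerset, mem_image]
    constructor
    · rintro ⟨h1, h2⟩
      exact ⟨X.erase x, mem_powerset.2 (erase_subset_erase x h1), insert_erase h2⟩
    · rintro ⟨Y, hY, rfl⟩
      refine ⟨insert_subset hx ((mem_powerset.1 hY).trans (erase_subset _ _)),
        mem_insert_self _ _⟩
  have hinj : Set.InjOn (insert x) ((V.erase x).powerset : Set (Finset ℕ)) := by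
    intro X hX Y hY hXY
    have h1 : x ∉ X := fun h => by
      have := (mem_powerset.1 (mem_coe.1 hX)) h
      simp at this
    have h2 : x ∉ Y := fun h => by
      have := (mem_powerset.1 (mem_coe.1 hY)) h
      simp at this
    have h3 : (insert x X).erase x = (insert x Y).erase x := by
      have : insert x X = insert x Y := hXY
      rw [this]
    rwa [erase_insert h1, erase_insert h2] at h3
  rw [h1, card_image_of_injOn hinj, card_powerset, card_powerset, card_erase_of_mem hx]
  have h2 : 0 < V.card := card_pos.2 ⟨x, hx⟩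
  obtain ⟨m, hm⟩ := Nat.exists_eq_succ_of_ne_zero h2.ne'
  rw [hm]
  simp [pow_succ]
  ring

end Q123.UCO
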